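import Pool.Agent.H5.EG.Spec2

/-!
# MP_98cfca_co, Q1: inequality between means of logarithms (`S_cartan`)
-/

set_option autoImplicit false

namespace Pool.Agent.H286.EG

open Pool.Agent.H5.EG MeasureTheory Real

theorem mono_ae {ρ : ℝ} {f g : ℂ → ℝ} (hf : CircleIntegrable f 0 ρ) (hg : CircleIntegrable g 0 ρ)
    (h : ∀ᵐ θ : ℝ, f (circleMap 0 ρ θ) ≤ g (circleMap 0 ρ θ)) :
    circleAverage f 0 ρ ≤ circleAverage g 0 ρ := by
  rw [circleAverage_def, circleAverage_def, smul_eq_mul, smul_eq_mul]
  refine mul_le_mul_of_nonneg_left ?_ (by positivity)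
  exact intervalIntegral.integral_mono_ae (by positivity) hf hg h

theorem cartan : S_cartan := by
  intro b ρ u c Δ P Q M hρ hP hQ hM hc0 hcM hsum hu hu0 hΔi hΔm hΔ0 hPb hQb
  have hlogP : 0 ≤ log P := Real.log_nonneg hP
  have hlogQ : 0 ≤ log Q := Real.log_nonneg hQ
  have hlogM : 0 ≤ log M := Real.log_nonneg hM
  have hsph : ∀ θ : ℝ, ‖circleMap 0 ρ θ‖ = ρ := by
    intro θ
    rw [norm_circleMap_zero, abs_of_pos hρ]
  -- notation
  set a : Fin b → ℂ → ℝ := fun i x => log ‖c i‖ + u i x with ha
  set δ : ℂ → ℝ := fun x => log ‖Δ x‖ with hδ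
  have hac : ∀ i, ContinuousOn (a i) (Metric.sphere 0 ρ) := fun i => continuousOn_const.add (hu i)
  have hai : ∀ i, CircleIntegrable (a i) 0 ρ := fun i => (hac i).circleIntegrable hρ.le
  have hui : ∀ i, CircleIntegrable (u i) 0 ρ := fun i => (hu i).circleIntegrable hρ.le
  have hconst : ∀ t : ℝ, CircleIntegrable (fun _ => t) 0 ρ := fun t =>
    (continuousOn_const (s := Metric.sphere 0 ρ)).circleIntegrable hρ.le
  have hma : ∀ i, circleAverage (a i) 0 ρ = log ‖c i‖ := by
    intro i
    simp only [ha]
    rw [circleAverage_fun_add (hconst _) (hui i), hu0 i, circleAverage_const, add_zero]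
  -- (1)
  have h1 : ∀ i, ∀ᵐ θ : ℝ, a i (circleMap 0 ρ θ) ≤ log P - δ (circleMap 0 ρ θ) := by
    intro i
    filter_upwards [hΔ0] with θ hθ
    have h := hPb i _ (hsph θ)
    have h2 : 0 < ‖c i‖ := norm_pos_iff.2 (hc0 i)
    have h3 : 0 < ‖Δ (circleMap 0 ρ θ)‖ := norm_pos_iff.2 hθ
    have h4 := Real.log_le_log (by positivity) h
    rw [Real.log_mul (by positivity) h3.ne', Real.log_mul h2.ne' (Real.exp_pos _).ne',
      Real.log_exp] at h4
    simp only [ha, hδ]
    linarith
  have hcl : ∀ i, - log M ≤ log ‖c i‖ := by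
    intro i
    have := Real.log_le_log (by positivity) (hcM i)
    rwa [one_div, Real.log_inv] at this
  have hδi : CircleIntegrable δ 0 ρ := hΔi
  -- (2)
  have h2 : ∀ i j, circleAverage (fun x => max (a i x - a j x) 0) 0 ρ ≤ log P + 1 := by
    intro i j
    have hi : CircleIntegrable (fun x => log P - δ x) 0 ρ := by
      have := (hconst (log P)).sub hδi
      exact this
    have hi2 : CircleIntegrable (fun x => (log P - δ x) - a j x) 0 ρ := hi.sub (hai j)
    have h := mono_ae (f := fun x => max (a i x - a j x) 0) (g := fun x => (log P - δ x) - a j x)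
      (ρ := ρ) ((((hac i).sub (hac j)).sup continuousOn_const).circleIntegrable hρ.le) hi2 (by
        filter_upwards [h1 i, h1 j] with θ hA hB
        refine max_le ?_ ?_ <;> linarith)
    rw [circleAverage_fun_sub hi (hai j), circleAverage_fun_sub (hconst _) hδi, hma,
      circleAverage_const] at h
    have := hcl j
    have h5 : log M - 1 ≤ circleAverage δ 0 ρ := hΔm
    linarith
  have h3 : ∀ i j, circleAverage (fun x => |a i x - a j x|) 0 ρ ≤ 2 * log P + 2 := by
    intro i j
    have e : (fun x => |a i x - a j x|) = fun x => max (a i x - a j x) 0 + max (a j x - a i x) 0 := by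
      funext x
      rcases le_total (a i x) (a j x) with h | h
      · rw [abs_of_nonpos (by linarith), max_eq_right (by linarith), max_eq_left (by linarith)]; ring
      · rw [abs_of_nonneg (by linarith), max_eq_left (by linarith), max_eq_right (by linarith)]; ring
    have i1 : CircleIntegrable (fun x => max (a i x - a j x) 0) 0 ρ :=
      (((hac i).sub (hac j)).sup continuousOn_const).circleIntegrable hρ.le
    have i2 : CircleIntegrable (fun x => max (a j x - a i x) 0) 0 ρ :=
      (((hac j).sub (hac i)).sup continuousOn_const).circleIntegrable hρ.le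
    rw [e, circleAverage_fun_add i1 i2]
    have := h2 i j
    have := h2 j i
    linarith
  -- (3)
  obtain ⟨j, hj⟩ : ∃ j, 1 / (b : ℝ) ≤ ‖c j‖ := by
    by_contra hcon
    push Not at hcon
    have hb : 0 < b := by
      rcases Nat.eq_zero_or_pos b with h | h
      · subst h
        simp at hsum
      · exact h
    have hb' : (0:ℝ) < b := by exact_mod_cast hb
    have : ‖∑ i, c i‖ < 1 := by
      calc ‖∑ i, c i‖ ≤ ∑ i, ‖c i‖ := norm_sum_le _ _
        _ < ∑ i : Fin b, 1 / (b : ℝ) := by
          apply Finset.sum_lt_sum_of_nonempty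
          · exact ⟨⟨0, hb⟩, Finset.mem_univ _⟩
          · intro i _
            exact hcon i
        _ = 1 := by
          rw [Finset.sum_const, Finset.card_univ, Fintype.card_fin, nsmul_eq_mul]
          field_simp
    rw [hsum] at this
    simp at this
  have hb : 0 < b := lt_of_le_of_lt (Nat.zero_le _) j.2
  have hb' : (0:ℝ) < b := by exact_mod_cast hb
  have hjl : - log b ≤ log ‖c j‖ := by
    have := Real.log_le_log (by positivity) hj
    rwa [one_div, Real.log_inv] at this
  have h4 : circleAverage (fun x => max (a j x) 0) 0 ρ ≤ log P + log Q + 1 := by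
    have hi : CircleIntegrable (fun x => (log P + log Q) - δ x) 0 ρ := (hconst _).sub hδi
    have h := mono_ae (f := fun x => max (a j x) 0) (g := fun x => (log P + log Q) - δ x)
      (ρ := ρ) (((hac j).sup continuousOn_const).circleIntegrable hρ.le) hi (by
        filter_upwards [h1 j, hΔ0] with θ hA hB
        have h6 : δ (circleMap 0 ρ θ) ≤ log Q :=
          Real.log_le_log (norm_pos_iff.2 hB) (hQb _ (hsph θ))
        refine max_le ?_ ?_ <;> linarith)
    rw [circleAverage_fun_sub (hconst _) hδi, circleAverage_const] at h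
    have h5 : log M - 1 ≤ circleAverage δ 0 ρ := hΔm
    linarith
  have h5 : circleAverage (fun x => |a j x|) 0 ρ ≤ 2 * log P + 2 * log Q + 2 + log b := by
    have e : (fun x => |a j x|) = fun x => (max (a j x) 0 + max (a j x) 0) - a j x := by
      funext x
      rcases le_total (a j x) 0 with h | h
      · rw [abs_of_nonpos h, max_eq_right h]; ring
      · rw [abs_of_nonneg h, max_eq_left h]; ring
    have hm : CircleIntegrable (fun x => max (a j x) 0) 0 ρ :=
      ((hac j).sup continuousOn_const).circleIntegrable hρ.le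
    have hmm : CircleIntegrable (fun x => max (a j x) 0 + max (a j x) 0) 0 ρ := hm.add hm
    rw [e, circleAverage_fun_sub hmm (hai j), circleAverage_fun_add hm hm, hma]
    linarith
  -- (4)
  intro i
  have h6 : circleAverage (fun x => |a i x|) 0 ρ ≤ 4 * log P + 2 * log Q + 4 + log b := by
    have hm1 : CircleIntegrable (fun x => |a i x - a j x|) 0 ρ :=
      (((hac i).sub (hac j)).abs).circleIntegrable hρ.le
    have hm2 : CircleIntegrable (fun x => |a j x|) 0 ρ := ((hac j).abs).circleIntegrable hρ.le
    have h := circleAverage_mono (f₁ := fun x => |a i x|)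
      (f₂ := fun x => |a i x - a j x| + |a j x|) (c := 0) (R := ρ)
      (((hac i).abs).circleIntegrable hρ.le) (hm1.add hm2) (by
        intro x _
        have := abs_add_le (a i x - a j x) (a j x)
        rwa [sub_add_cancel] at this)
    rw [circleAverage_fun_add hm1 hm2] at h
    have := h3 i j
    linarith
  have h7 : |log ‖c i‖| ≤ circleAverage (fun x => |a i x|) 0 ρ := by
    rw [← hma i]
    exact abs_circleAverage_le_circleAverage_abs
  have hm3 : CircleIntegrable (fun x => |a i x|) 0 ρ := ((hac i).abs).circleIntegrable hρ.le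
  have h8 := circleAverage_mono (f₁ := fun x => |u i x|)
      (f₂ := fun x => |a i x| + |log ‖c i‖|) (c := 0) (R := ρ)
      (((hu i).abs).circleIntegrable hρ.le) (hm3.add (hconst _)) (by
        intro x _
        have e : u i x = a i x - log ‖c i‖ := by simp only [ha]; ring
        rw [e]
        exact abs_sub _ _)
  rw [circleAverage_fun_add hm3 (hconst _), circleAverage_const] at h8
  linarith

end Pool.Agent.H286.EG
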